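import Pool.Agent.H70.Kp3

open Pool.Agent.H70.Kp in
theorem Pool.Agent.Results.MP_0a7e48_nt.No.result :
    ¬ ∀ P : List ℕ, P ≠ [] → Even P.length → (∀ a ∈ P, 0 < a) →
      Filter.Tendsto (fun N : ℕ => (cnt P N : ℝ) / cnt (P.rotate 1) N) Filter.atTop
        (nhds (GK P.dropLast / GK (P.rotate 1).dropLast)) :=
  fun h => main (h [1, 1000000] (by simp) (by simp) (by simp))
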